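import Mathlib

set_option autoImplicit false
open MeasureTheory Set Filter Topology

namespace Pool.Agent.H316R3.Stab

abbrev K : Type := ↥(Icc (0:ℝ) 1) × ↥(Icc (0:ℝ) 1)

/-- generator symbol `-δ + iσ` -/
noncomputable def hK : C(K, ℂ) := ⟨fun p => -((p.1 : ℝ) : ℂ) + Complex.I * ((p.2 : ℝ) : ℂ), by fun_prop⟩

noncomputable def E (t : ℝ) : C(K, ℂ) := NormedSpace.exp (t • hK)

theorem E_apply (t : ℝ) (p : K) : E t p = Complex.exp (t * hK p) := by
  have h : (NormedSpace.exp (t • hK)) p = NormedSpace.exp ((t • hK) p) := by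
    have := NormedSpace.map_exp (ContinuousMap.evalAlgHom ℂ ℂ p) (by
      show Continuous (fun f : C(K, ℂ) => f p)
      exact continuous_eval_const p) (t • hK)
    exact this
  rw [E, h, ← Complex.exp_eq_exp_ℂ]
  simp

theorem E_zero : E 0 = 1 := by ext p; simp [E_apply]

theorem E_add (s t : ℝ) : E (s + t) = E s * E t := by
  ext p
  rw [ContinuousMap.mul_apply, E_apply, E_apply, E_apply, ← Complex.exp_add]
  congr 1; push_cast; ring

theorem E_cont : Continuous E := by
  rw [continuous_iff_continuousAt]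
  intro t
  exact (hasDerivAt_exp_smul_const (𝕂 := ℝ) hK t).continuousAt

theorem E_norm_apply (t : ℝ) (p : K) : ‖E t p‖ = Real.exp (-(t * p.1)) := by
  rw [E_apply, Complex.norm_exp]
  congr 1
  simp [hK]

noncomputable def T (t : ℝ) : C(K, ℂ) →L[ℂ] C(K, ℂ) := ContinuousLinearMap.mul ℂ C(K, ℂ) (E t)

theorem T_apply (t : ℝ) (f : C(K, ℂ)) : T t f = E t * f := rfl

theorem T_zero : T 0 = 1 := by
  ext f : 1
  rw [T_apply, E_zero, one_mul]; rfl

theorem T_add (s t : ℝ) : T (s + t) = T s * T t := by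
  ext f : 1
  rw [mul_apply_eq_comp, T_apply, T_apply, T_apply, E_add, mul_assoc]

theorem T_cont (f : C(K, ℂ)) : Continuous (fun t : ℝ => T t f) := by
  simp only [T_apply]
  exact E_cont.mul continuous_const

theorem T_norm (t : ℝ) (ht : 0 ≤ t) : ‖T t‖ ≤ 1 := by
  apply ContinuousLinearMap.opNorm_le_bound _ zero_le_one
  intro f
  rw [one_mul, T_apply, ContinuousMap.norm_le _ (norm_nonneg _)]
  intro p
  rw [ContinuousMap.mul_apply, norm_mul, E_norm_apply]
  have h1 : Real.exp (-(t * p.1)) ≤ 1 := by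
    rw [Real.exp_le_one_iff]
    have := p.1.2.1
    have : 0 ≤ t * (p.1 : ℝ) := mul_nonneg ht this
    linarith
  calc Real.exp (-(t * p.1)) * ‖f p‖ ≤ 1 * ‖f p‖ := mul_le_mul_of_nonneg_right h1 (norm_nonneg _)
    _ ≤ ‖f‖ := by rw [one_mul]; exact f.norm_coe_le_norm p

/-- the vector `√δ` -/
noncomputable def x0 : C(K, ℂ) := ⟨fun p => ((Real.sqrt (p.1 : ℝ) : ℝ) : ℂ), by fun_prop⟩

theorem T_x0_norm (t : ℝ) (ht : 0 < t) : ‖T t x0‖ ≤ 1 / Real.sqrt t := by
  rw [ContinuousMap.norm_le _ (by positivity)]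
  intro p
  rw [T_apply, ContinuousMap.mul_apply, norm_mul, E_norm_apply]
  simp only [x0, ContinuousMap.coe_mk]
  rw [Complex.norm_real, Real.norm_eq_abs, abs_of_nonneg (Real.sqrt_nonneg _)]
  have hd : 0 ≤ (p.1 : ℝ) := p.1.2.1
  set d : ℝ := (p.1 : ℝ) with hdd
  have h1 : t * d ≤ Real.exp (2 * (t * d)) := by
    have := Real.add_one_le_exp (2 * (t * d))
    have h0 : 0 ≤ t * d := mul_nonneg ht.le hd
    linarith
  rw [le_div_iff₀ (Real.sqrt_pos.2 ht), mul_assoc, ← Real.sqrt_mul hd, mul_comm d t]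
  have h2 : Real.sqrt (t * d) ≤ Real.exp (t * d) := by
    rw [Real.sqrt_le_left (Real.exp_pos _).le, ← Real.exp_nat_mul]
    exact_mod_cast h1
  calc Real.exp (-(t * d)) * Real.sqrt (t * d) ≤ Real.exp (-(t * d)) * Real.exp (t * d) :=
        mul_le_mul_of_nonneg_left h2 (Real.exp_pos _).le
    _ = 1 := by rw [← Real.exp_add]; simp

theorem T_x0_tendsto : Tendsto (fun t : ℝ => T t x0) atTop (𝓝 0) := by
  apply squeeze_zero_norm' (a := fun t : ℝ => 1 / Real.sqrt t)
  · filter_upwards [eventually_gt_atTop 0] with t ht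
    exact T_x0_norm t ht
  · have h1 : Tendsto Real.sqrt atTop atTop := Real.tendsto_sqrt_atTop
    simp only [one_div]
    exact h1.inv_tendsto_atTop

noncomputable def R (a s : ℝ) : C(K, ℂ) := ∫ t in Set.Ioi (0 : ℝ),
                    Complex.exp (-(((a : ℂ) + (s : ℂ) * Complex.I) * (t : ℂ))) • T t x0

theorem R_lower (a s : ℝ) (ha : 0 < a) (ha1 : a ≤ 1) (hs : 0 ≤ s) (hs1 : s ≤ 1) :
    1 / (2 * Real.sqrt a) ≤ ‖R a s‖ := by
  let p : K := (⟨a, ha.le, ha1⟩, ⟨s, hs, hs1⟩)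
  have hint : Integrable (fun t : ℝ => Complex.exp (-(((a : ℂ) + (s : ℂ) * Complex.I) * (t : ℂ))) • T t x0)
      (volume.restrict (Ioi 0)) := by
    refine Integrable.mono' (g := fun t => Real.exp (-a * t) * ‖x0‖) ?_ ?_ ?_
    · exact (exp_neg_integrableOn_Ioi 0 ha).mul_const _
    · apply Continuous.aestronglyMeasurable
      have hc : Continuous (fun t : ℝ => Complex.exp (-(((a : ℂ) + (s : ℂ) * Complex.I) * (t : ℂ)))) := by
        fun_prop
      exact hc.smul (T_cont x0)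
    · rw [ae_restrict_iff' measurableSet_Ioi]
      refine Eventually.of_forall fun t ht => ?_
      rw [norm_smul, Complex.norm_exp]
      have h1 : (-(((a : ℂ) + (s : ℂ) * Complex.I) * (t : ℂ))).re = -a * t := by simp
      rw [h1]
      apply mul_le_mul_of_nonneg_left _ (Real.exp_pos _).le
      calc ‖T t x0‖ ≤ ‖T t‖ * ‖x0‖ := (T t).le_opNorm _
        _ ≤ 1 * ‖x0‖ := mul_le_mul_of_nonneg_right (T_norm t (le_of_lt ht)) (norm_nonneg _)
        _ = ‖x0‖ := one_mul _
  have heval : R a s p = ∫ t in Set.Ioi (0 : ℝ),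
      (Complex.exp (-(((a : ℂ) + (s : ℂ) * Complex.I) * (t : ℂ))) • T t x0) p := by
    have h := (ContinuousMap.evalCLM ℂ p (M := ℂ)).integral_comp_comm hint
    exact h.symm
  have hval : R a s p = ((1 / (2 * Real.sqrt a) : ℝ) : ℂ) := by
    rw [heval]
    have h1 : ∀ t : ℝ, (Complex.exp (-(((a : ℂ) + (s : ℂ) * Complex.I) * (t : ℂ))) • T t x0) p
        = ((Real.exp (-(2 * a) * t) * Real.sqrt a : ℝ) : ℂ) := by
      intro t
      rw [ContinuousMap.smul_apply, T_apply, ContinuousMap.mul_apply, E_apply, smul_eq_mul, ← mul_assoc,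
        ← Complex.exp_add]
      simp only [hK, x0, ContinuousMap.coe_mk, p]
      push_cast
      congr 1
      congr 1
      ring
    simp_rw [h1]
    rw [integral_complex_ofReal, MeasureTheory.integral_mul_const, integral_exp_mul_Ioi (by linarith)]
    congr 1
    have hsa : Real.sqrt a ≠ 0 := (Real.sqrt_pos.2 ha).ne'
    have hsq : Real.sqrt a * Real.sqrt a = a := Real.mul_self_sqrt ha.le
    simp only [mul_zero, Real.exp_zero]
    rw [div_mul_eq_mul_div, div_eq_div_iff (by nlinarith) (by positivity)]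
    nlinarith
  calc 1 / (2 * Real.sqrt a) = ‖R a s p‖ := by
        rw [hval, Complex.norm_real, Real.norm_eq_abs, abs_of_nonneg (by positivity)]
    _ ≤ ‖R a s‖ := (R a s).norm_coe_le_norm p

theorem not_tendsto : ¬ Tendsto
            (fun a : ℝ => ENNReal.ofReal a *
              ∫⁻ s : ℝ,
                ((‖R a s‖₊ : ENNReal)) ^ 2)
            (𝓝[>] (0 : ℝ)) (𝓝 0) := by
  intro h
  have h1 : ∀ᶠ a in 𝓝[>] (0:ℝ), ENNReal.ofReal (1/4) ≤ ENNReal.ofReal a *
              ∫⁻ s : ℝ, ((‖R a s‖₊ : ENNReal)) ^ 2 := by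
    have hmem : Ioc (0:ℝ) 1 ∈ 𝓝[>] (0:ℝ) := Ioc_mem_nhdsGT one_pos
    filter_upwards [hmem] with a ha
    have h2 : ENNReal.ofReal (1 / (4 * a)) ≤ ∫⁻ s : ℝ, ((‖R a s‖₊ : ENNReal)) ^ 2 := by
      calc ENNReal.ofReal (1 / (4 * a)) = ∫⁻ s in Icc (0:ℝ) 1, ENNReal.ofReal (1 / (4 * a)) := by
            simp
        _ ≤ ∫⁻ s in Icc (0:ℝ) 1, ((‖R a s‖₊ : ENNReal)) ^ 2 := by
            apply setLIntegral_mono_ae' measurableSet_Icc
            refine Eventually.of_forall fun s hs => ?_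
            have h3 := R_lower a s ha.1 ha.2 hs.1 hs.2
            have h4 : 1 / (4 * a) ≤ ‖R a s‖ ^ 2 := by
              have h5 : 1 / (4 * a) = (1 / (2 * Real.sqrt a))^2 := by
                rw [div_pow, mul_pow, Real.sq_sqrt ha.1.le]; norm_num
              rw [h5]
              exact pow_le_pow_left₀ (by positivity) h3 2
            calc ENNReal.ofReal (1 / (4 * a)) ≤ ENNReal.ofReal (‖R a s‖ ^ 2) := ENNReal.ofReal_le_ofReal h4
              _ = ((‖R a s‖₊ : ENNReal)) ^ 2 := by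
                rw [ENNReal.ofReal_pow (norm_nonneg _)]
                congr 1
                rw [← coe_nnnorm, ENNReal.ofReal_coe_nnreal]
        _ ≤ ∫⁻ s : ℝ, ((‖R a s‖₊ : ENNReal)) ^ 2 := setLIntegral_le_lintegral _ _
    calc ENNReal.ofReal (1/4) = ENNReal.ofReal a * ENNReal.ofReal (1 / (4 * a)) := by
          rw [← ENNReal.ofReal_mul ha.1.le]
          congr 1
          have := ha.1.ne'
          field_simp
      _ ≤ _ := by gcongr
  have h2 := ge_of_tendsto h h1
  simp at h2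

end Pool.Agent.H316R3.Stab
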